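import Mathlib

/-! M1D: an M_1 space with `dim = 1 < Ind` (problem MP_f54fa5_gt, frozen `S14232`).
Definitions. Blueprint: `/team-store/PLAN_M1D.md`. -/

set_option autoImplicit false
open Set Topology Filter

namespace Pool.Agent.MD

/-- Abstract data on a (compact) metric space `M`: an increasing sequence `N m` of locally constant
functions with values in `(-∞,1]`, and for each `g : G` a 1-Lipschitz function `dl g ≥ 0`
(distance to `K g`), with pairwise disjoint zero sets. -/
structure Data (M G : Type) [MetricSpace M] where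
  N : ℕ → M → ℝ
  dl : G → M → ℝ
  N_zero : ∀ p, N 0 p = 0
  N_mono : ∀ p, Monotone (fun m => N m p)
  N_le : ∀ m p, N m p ≤ 1
  N_lc : ∀ m, IsLocallyConstant (N m)
  dl_nonneg : ∀ g p, 0 ≤ dl g p
  dl_lip : ∀ g p q, dl g p ≤ dl g q + dist p q
  disj : ∀ g g' p, dl g p = 0 → dl g' p = 0 → g = g'

namespace Data

variable {M G : Type} [MetricSpace M] (D : Data M G)

/-- `f g p = sup_m min (N_m p) (1 - m * dl g p)`. -/
noncomputable def f (g : G) (p : M) : ℝ := ⨆ m : ℕ, min (D.N m p) (1 - m * D.dl g p)

/-- `NN p = sup_m N_m p`. -/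
noncomputable def NN (p : M) : ℝ := ⨆ m : ℕ, D.N m p

/-- The closed set `K g`, zero set of `dl g`. -/
def K (g : G) : Set M := {p | D.dl g p = 0}

/-- The same set of points with the finer topology generated by `M` and all functions `f g`. -/
def TX (_ : Data M G) : Type := M

noncomputable instance : TopologicalSpace D.TX :=
  TopologicalSpace.induced (fun p : M => ((p, fun g => D.f g p) : M × (G → ℝ))) inferInstance

/-- identity `M → TX`. -/
def toX (p : M) : D.TX := p

/-- identity `TX → M`. -/
def toM (p : D.TX) : M := p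

/-- restriction of the data to a subset of the index set. -/
def restrict (B : Set G) : Data M B where
  N := D.N
  dl g := D.dl g
  N_zero := D.N_zero
  N_mono := D.N_mono
  N_le := D.N_le
  N_lc := D.N_lc
  dl_nonneg g := D.dl_nonneg g
  dl_lip g := D.dl_lip g
  disj g g' p h h' := Subtype.ext (D.disj g g' p h h')

end Data

/-- Cantor space. -/
abbrev Cant : Type := ℕ → Bool

/-- `N_m(c) = min 1 (∑_{i<m} c_i/(i+1))`. -/
noncomputable def Nc (m : ℕ) (c : Cant) : ℝ :=
  min 1 (∑ i ∈ Finset.range m, if c i then (1 : ℝ) / (i + 1) else 0)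

/-- `N(c) = sup_m N_m(c)`. -/
noncomputable def NNc (c : Cant) : ℝ := ⨆ m : ℕ, Nc m c

/-- closed sets of order ≤ 2: the closed shrinking form of `dim F ≤ 1` for a closed set `F`. -/
def DimLe1On {Z : Type} [TopologicalSpace Z] (F : Set Z) : Prop :=
  ∀ (k : ℕ) (U : Fin k → Set Z), (∀ i, IsOpen (U i)) → F ⊆ ⋃ i, U i →
    ∃ A : Fin k → Set Z, (∀ i, IsClosed (A i)) ∧ (∀ i, A i ⊆ U i) ∧ F ⊆ ⋃ i, A i ∧
      ∀ x, {i | x ∈ A i}.ncard ≤ 2

/-! ### Concrete space -/

/-- `M = [0,1] × C × G` as a bare type; its metric is a compatible metric. -/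
def MM : Type := unitInterval × Cant × Cant

noncomputable instance : MetricSpace MM :=
  (TopologicalSpace.metrizableSpaceMetric (unitInterval × Cant × Cant) :
    MetricSpace (unitInterval × Cant × Cant))

/-- the homeomorphism with the product. -/
noncomputable def eM : MM ≃ₜ unitInterval × Cant × Cant where
  toFun := id
  invFun := id
  left_inv _ := rfl
  right_inv _ := rfl
  continuous_toFun := continuous_id
  continuous_invFun := continuous_id

instance : CompactSpace MM := eM.symm.compactSpace

/-- truncated distance to a set, `= 1` for the empty set. -/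
noncomputable def ddist {M : Type} [MetricSpace M] (K : Set M) (p : M) : ℝ :=
  open Classical in if K = ∅ then 1 else min 1 (Metric.infDist p K)

theorem ddist_nonneg {M : Type} [MetricSpace M] (K : Set M) (p : M) : 0 ≤ ddist K p := by
  unfold ddist
  split_ifs
  · exact zero_le_one
  · exact le_min zero_le_one Metric.infDist_nonneg

theorem ddist_lip {M : Type} [MetricSpace M] (K : Set M) (p q : M) :
    ddist K p ≤ ddist K q + dist p q := by
  unfold ddist
  split_ifs
  · linarith [dist_nonneg (x := p) (y := q)]
  · have h := Metric.infDist_le_infDist_add_dist (s := K) (x := p) (y := q)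
    rcases min_cases 1 (Metric.infDist q K) with h1 | h1
    · have := min_le_left 1 (Metric.infDist p K)
      have := dist_nonneg (x := p) (y := q)
      linarith [h1.1]
    · have := min_le_right 1 (Metric.infDist p K)
      linarith [h1.1]

theorem ddist_eq_zero {M : Type} [MetricSpace M] {K : Set M} (hK : IsClosed K) (p : M) :
    ddist K p = 0 ↔ p ∈ K := by
  unfold ddist
  split_ifs with h
  · simp [h]
  · have hne : K.Nonempty := Set.nonempty_iff_ne_empty.2 h
    rw [hK.mem_iff_infDist_zero hne]
    constructor
    · intro h1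
      rcases min_cases 1 (Metric.infDist p K) with h2 | h2
      · rw [h2.1] at h1; norm_num at h1
      · rw [h2.1] at h1; exact h1
    · intro h1
      rw [h1]; norm_num

/-- an enumerated countable base of `MM`: every open set is a union of some of the `O n`. -/
theorem exists_enum_base : ∃ O : ℕ → Set MM, (∀ n, IsOpen (O n)) ∧
    ∀ U : Set MM, IsOpen U → ∃ g : Cant, U = ⋃ n ∈ {n | g n = true}, O n := by
  obtain ⟨b, hbc, -, hb⟩ := TopologicalSpace.exists_countable_basis MM
  have hne : b.Nonempty := by
    have := hb.sUnion_eq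
    by_contra h
    rw [Set.not_nonempty_iff_eq_empty] at h
    rw [h, Set.sUnion_empty] at this
    have h1 : (eM.symm (0, fun _ => false, fun _ => false)) ∈ (univ : Set MM) := mem_univ _
    rw [← this] at h1
    exact h1
  obtain ⟨O, hO⟩ := hbc.exists_eq_range hne
  refine ⟨O, fun n => hb.isOpen (hO ▸ mem_range_self n), fun U hU => ?_⟩
  classical
  refine ⟨fun n => decide (O n ⊆ U), ?_⟩
  apply Set.Subset.antisymm
  · intro x hx
    obtain ⟨v, hv, hxv, hvU⟩ := hb.exists_subset_of_mem_open hx hU
    rw [hO] at hv
    obtain ⟨n, rfl⟩ := hv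
    exact mem_biUnion (by simpa using hvU) hxv
  · intro x hx
    simp only [mem_iUnion] at hx
    obtain ⟨n, hn, hx⟩ := hx
    have : O n ⊆ U := by simpa using hn
    exact this hx

/-- the enumerated base. -/
noncomputable def OO : ℕ → Set MM := Classical.choose exists_enum_base

theorem OO_open (n : ℕ) : IsOpen (OO n) := (Classical.choose_spec exists_enum_base).1 n

/-- the closed set with code `g`. -/
def LL (g : Cant) : Set MM := (⋃ n ∈ {n | g n = true}, OO n)ᶜ

theorem LL_closed (g : Cant) : IsClosed (LL g) := by
  rw [LL, isClosed_compl_iff]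
  exact isOpen_biUnion fun n _ => OO_open n

/-- every closed set has a code. -/
theorem exists_code (L : Set MM) (hL : IsClosed L) : ∃ g, L = LL g := by
  obtain ⟨g, hg⟩ := (Classical.choose_spec exists_enum_base).2 Lᶜ hL.isOpen_compl
  refine ⟨g, ?_⟩
  rw [LL, ← compl_compl L, hg]
  rfl

/-- the coordinates. -/
noncomputable def tt (p : MM) : unitInterval := (eM p).1
noncomputable def cc (p : MM) : Cant := (eM p).2.1
noncomputable def gg (p : MM) : Cant := (eM p).2.2

theorem continuous_tt : Continuous tt := continuous_fst.comp eM.continuous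
theorem continuous_cc : Continuous cc := continuous_fst.comp (continuous_snd.comp eM.continuous)
theorem continuous_gg : Continuous gg := continuous_snd.comp (continuous_snd.comp eM.continuous)

/-- `L_g` misses the two faces on `X_g`, and its fibres over `C × {g}` have empty interior. -/
def Thin (g : Cant) : Prop :=
  (∀ p ∈ LL g, gg p = g → tt p ≠ 0 ∧ tt p ≠ 1) ∧
    ∀ c : Cant, interior {r : unitInterval | eM.symm (r, c, g) ∈ LL g} = ∅

/-- `K_g = L_g ∩ X_g` if `g` is thin, and `∅` otherwise. -/
def KK (g : Cant) : Set MM := {p | Thin g ∧ p ∈ LL g ∧ gg p = g}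

theorem KK_closed (g : Cant) : IsClosed (KK g) := by
  have h1 : IsClosed {p : MM | gg p = g} := isClosed_eq continuous_gg continuous_const
  by_cases h : Thin g
  · have : KK g = LL g ∩ {p | gg p = g} := by
      ext p; simp [KK, h]
    rw [this]
    exact (LL_closed g).inter h1
  · have : KK g = ∅ := by
      ext p; simp [KK, h]
    rw [this]
    exact isClosed_empty

theorem Nc_zero (c : Cant) : Nc 0 c = 0 := by simp [Nc]

theorem Nc_mono (c : Cant) : Monotone (fun m => Nc m c) := by
  intro a b hab
  refine min_le_min le_rfl (Finset.sum_le_sum_of_subset_of_nonneg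
    (Finset.range_mono hab) fun i _ _ => ?_)
  split_ifs <;> positivity

theorem Nc_le (m : ℕ) (c : Cant) : Nc m c ≤ 1 := min_le_left _ _

theorem Nc_lc (m : ℕ) : IsLocallyConstant (Nc m) := by
  rw [IsLocallyConstant.iff_eventually_eq]
  intro c
  have h : ∀ᶠ c' in 𝓝 c, ∀ i ∈ Finset.range m, c' i = c i := by
    rw [Filter.eventually_all_finset]
    intro i _
    have h1 : Continuous (fun c' : Cant => c' i) := continuous_apply i
    have h2 : IsOpen {c' : Cant | c' i = c i} := (isOpen_discrete {c i}).preimage h1
    exact h2.mem_nhds rfl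
  filter_upwards [h] with c' hc'
  unfold Nc
  congr 1
  exact Finset.sum_congr rfl fun i hi => by rw [hc' i hi]

/-- the concrete data. -/
noncomputable def DD : Data MM Cant where
  N m p := Nc m (cc p)
  dl g p := ddist (KK g) p
  N_zero p := Nc_zero _
  N_mono p := Nc_mono _
  N_le m p := Nc_le m _
  N_lc m := (Nc_lc m).comp_continuous continuous_cc
  dl_nonneg g p := ddist_nonneg _ _
  dl_lip g p q := ddist_lip _ _ _
  disj g g' p h h' := by
    rw [ddist_eq_zero (KK_closed _)] at h h'
    exact h.2.2.symm.trans h'.2.2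

theorem DD_K (g : Cant) : DD.K g = KK g := by
  ext p
  exact ddist_eq_zero (KK_closed g) p

theorem DD_NN (p : MM) : DD.NN p = NNc (cc p) := rfl

/-- the counterexample. -/
abbrev XX : Type := DD.TX

end Pool.Agent.MD
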