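import Pool.Agent.Helper36_M1D.Stmts

set_option autoImplicit false
open Set Topology Filter

namespace Pool.Agent.MD

section
variable {M G : Type} [MetricSpace M] (D : Data M G)

theorem bdd_f (g : G) (p : M) :
    BddAbove (Set.range fun m : ℕ => min (D.N m p) (1 - m * D.dl g p)) :=
  ⟨1, by rintro _ ⟨m, rfl⟩; exact (min_le_left _ _).trans (D.N_le m p)⟩

theorem bdd_NN (p : M) : BddAbove (Set.range fun m : ℕ => D.N m p) :=
  ⟨1, by rintro _ ⟨m, rfl⟩; exact D.N_le m p⟩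

theorem fk_lt_f_iff (g : G) (p : M) (s : ℝ) :
    s < D.f g p ↔ ∃ m : ℕ, s < D.N m p ∧ s < 1 - m * D.dl g p := by
  unfold Data.f
  rw [lt_ciSup_iff (bdd_f D g p)]
  simp only [lt_min_iff]

theorem fk_lt_NN_iff (p : M) (s : ℝ) : s < D.NN p ↔ ∃ m : ℕ, s < D.N m p := by
  unfold Data.NN
  rw [lt_ciSup_iff (bdd_NN D p)]

theorem fk_f_nonneg (g : G) (p : M) : 0 ≤ D.f g p := by
  have h := le_ciSup (bdd_f D g p) 0
  have h2 : min (D.N 0 p) (1 - ((0 : ℕ) : ℝ) * D.dl g p) = 0 := by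
    rw [D.N_zero]; simp
  rw [h2] at h
  exact h

theorem fk_f_le_NN (g : G) (p : M) : D.f g p ≤ D.NN p := by
  refine ciSup_le fun m => ?_
  exact (min_le_left _ _).trans (le_ciSup (bdd_NN D p) m)

theorem fk_NN_nonneg (p : M) : 0 ≤ D.NN p := by
  have h := le_ciSup (bdd_NN D p) 0
  rw [D.N_zero] at h
  exact h

theorem fk_NN_le_one (p : M) : D.NN p ≤ 1 := ciSup_le fun m => D.N_le m p

theorem fk_f_eq_NN (g : G) (p : M) (h : p ∈ D.K g) : D.f g p = D.NN p := by
  apply le_antisymm (fk_f_le_NN D g p)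
  refine le_of_forall_lt fun s hs => ?_
  rw [fk_lt_NN_iff] at hs
  obtain ⟨m, hm⟩ := hs
  rw [fk_lt_f_iff]
  have h0 : D.dl g p = 0 := h
  -- s < N m p ≤ 1
  refine ⟨m, hm, ?_⟩
  rw [h0, mul_zero, sub_zero]
  exact lt_of_lt_of_le hm (D.N_le m p)

theorem fk_dl_cont (g : G) : Continuous (D.dl g) := by
  have : LipschitzWith 1 (D.dl g) := by
    apply LipschitzWith.of_le_add
    intro p q
    exact D.dl_lip g p q
  exact this.continuous

theorem fk_K_closed (g : G) : IsClosed (D.K g) :=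
  isClosed_eq (fk_dl_cont D g) continuous_const

theorem fk_f_lsc (g : G) : LowerSemicontinuous (D.f g) := by
  intro p s hs
  change s < D.f g p at hs
  rw [fk_lt_f_iff] at hs
  obtain ⟨m, h1, h2⟩ := hs
  have c1 : Continuous (D.N m) := (D.N_lc m).continuous
  have c2 : Continuous (fun p => 1 - (m : ℝ) * D.dl g p) :=
    continuous_const.sub (continuous_const.mul (fk_dl_cont D g))
  filter_upwards [c1.continuousAt.eventually (lt_mem_nhds h1), c2.continuousAt.eventually (lt_mem_nhds h2)]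
    with q hq1 hq2
  change s < D.f g q
  rw [fk_lt_f_iff]
  exact ⟨m, hq1, hq2⟩

theorem fk_NN_lsc : LowerSemicontinuous D.NN := by
  intro p s hs
  change s < D.NN p at hs
  rw [fk_lt_NN_iff] at hs
  obtain ⟨m, h1⟩ := hs
  have c1 : Continuous (D.N m) := (D.N_lc m).continuous
  filter_upwards [c1.continuousAt.eventually (lt_mem_nhds h1)] with q hq1
  change s < D.NN q
  rw [fk_lt_NN_iff]
  exact ⟨m, hq1⟩

theorem fk_f_contAt (g : G) (p : M) (h : p ∉ D.K g) : ContinuousAt (D.f g) p := by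
  have hd : 0 < D.dl g p := lt_of_le_of_ne (D.dl_nonneg g p) (fun h' => h h'.symm)
  obtain ⟨m0, hm0⟩ := exists_nat_gt (2 / D.dl g p)
  have hlow := (fk_f_lsc D g) p
  refine tendsto_order.2 ⟨fun s hs => hlow s hs, fun t ht => ?_⟩
  have ht0 : 0 < t := lt_of_le_of_lt (fk_f_nonneg D g p) ht
  obtain ⟨t', ht', ht't⟩ := exists_between ht
  have ht'0 : 0 < t' := lt_of_le_of_lt (fk_f_nonneg D g p) ht'
  have e1 : ∀ᶠ q in 𝓝 p, D.dl g p / 2 < D.dl g q :=
    (fk_dl_cont D g).continuousAt.eventually (lt_mem_nhds (by linarith))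
  have e2 : ∀ᶠ q in 𝓝 p, ∀ m ∈ Finset.range m0, min (D.N m q) (1 - m * D.dl g q) < t' := by
    rw [Filter.eventually_all_finset]
    intro m _
    have c1 : Continuous (D.N m) := (D.N_lc m).continuous
    have c2 : Continuous (fun p => min (D.N m p) (1 - (m : ℝ) * D.dl g p)) :=
      c1.min (continuous_const.sub (continuous_const.mul (fk_dl_cont D g)))
    refine c2.continuousAt.eventually (gt_mem_nhds ?_)
    exact lt_of_le_of_lt (le_ciSup (bdd_f D g p) m) ht'
  filter_upwards [e1, e2] with q h1 h2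
  refine lt_of_le_of_lt (ciSup_le fun m => ?_) ht't
  by_cases hm : m < m0
  · exact (h2 m (Finset.mem_range.2 hm)).le
  · push Not at hm
    have hmr : (m0 : ℝ) ≤ m := by exact_mod_cast hm
    have : (1 : ℝ) ≤ m * D.dl g q := by
      have h3 : 2 < (m : ℝ) * D.dl g p := by
        have := (div_lt_iff₀ hd).1 hm0
        nlinarith
      have : (0:ℝ) ≤ m := Nat.cast_nonneg m
      nlinarith
    exact (min_le_right _ _).trans (by linarith)

end

theorem fk : FK where
  lt_f_iff _ _ _ D := fk_lt_f_iff D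
  lt_NN_iff _ _ _ D := fk_lt_NN_iff D
  f_nonneg _ _ _ D := fk_f_nonneg D
  f_le_NN _ _ _ D := fk_f_le_NN D
  NN_nonneg _ _ _ D := fk_NN_nonneg D
  NN_le_one _ _ _ D := fk_NN_le_one D
  f_eq_NN _ _ _ D := fk_f_eq_NN D
  dl_cont _ _ _ D := fk_dl_cont D
  K_closed _ _ _ D := fk_K_closed D
  f_lsc _ _ _ D := fk_f_lsc D
  NN_lsc _ _ _ D := fk_NN_lsc D
  f_contAt _ _ _ D := fk_f_contAt D

end Pool.Agent.MD
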