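import Pool.Agent.Helper36_M1D.Stmts

set_option autoImplicit false
open Set Topology Filter

namespace Pool.Agent.MD

/-- the frozen statement (negation) from the three main modules. -/
theorem final (hT : ∀ (M G : Type) [MetricSpace M] (D : Data M G), T3Space D.TX)
    (hB : BASE) (hD : DIMX) (hI : INDX) :
    ¬ (∀ (X : Type) [TopologicalSpace X] [T3Space X],
    (∃ B : ℕ → Set (Set X), TopologicalSpace.IsTopologicalBasis (⋃ n, B n) ∧
      ∀ n, ∀ F ⊆ B n, closure (⋃₀ F) = ⋃ U ∈ F, closure U) →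
    ∀ n : ℕ,
      ((∀ (k : ℕ) (U : Fin k → Set X), (∀ i, IsOpen (U i)) → (⋃ i, U i) = Set.univ →
          ∃ (m : ℕ) (V : Fin m → Set X), (∀ j, IsOpen (V j)) ∧ (⋃ j, V j) = Set.univ ∧
            (∀ j, ∃ i, V j ⊆ U i) ∧ ∀ x : X, {j : Fin m | x ∈ V j}.ncard ≤ n + 1) ↔
        Nat.rec (motive := fun _ => Set X → Prop) (fun S => S = ∅)
          (fun (_ : ℕ) (P : Set X → Prop) (S : Set X) =>
            ∀ A O : Set X, IsClosed A → IsOpen O → A ∩ S ⊆ O →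
              ∃ W : Set X, IsOpen W ∧ A ∩ S ⊆ W ∩ S ∧ closure (W ∩ S) ∩ S ⊆ O ∧
                P {x : X | x ∈ closure (W ∩ S) ∧ x ∈ S ∧ x ∉ W})
          (n + 1) Set.univ)) := by
  intro h
  haveI : T3Space XX := hT MM Cant DD
  obtain ⟨B, hB1, hB2⟩ := hB MM Cant DD
  have h1 := (h XX ⟨B, hB1, hB2⟩ 1).1 (fun k U hU hc => by
    obtain ⟨V, hV, hVc, hVU, hVn⟩ := hD k U hU hc
    exact ⟨k, V, hV, hVc, fun j => ⟨j, hVU j⟩, hVn⟩)
  apply hI
  intro A O hA hO hAO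
  obtain ⟨W, hW, h2, h3, h4⟩ := h1 A O hA hO (by rwa [Set.inter_univ])
  rw [Set.inter_univ, Set.inter_univ] at h2
  rw [Set.inter_univ, Set.inter_univ] at h3
  refine ⟨W, hW, h2, h3, ?_⟩
  have e : {x : XX | x ∈ closure (W ∩ univ) ∧ x ∈ univ ∧ x ∉ W}
      = {x : XX | x ∈ closure W ∧ x ∉ W} := by
    ext x; simp
  rw [e] at h4
  intro A' O' hA' hO' hAO'
  exact h4 A' O' hA' hO' hAO'

end Pool.Agent.MD
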