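import Pool.Agent.Helper36_M1D.Defs

/-! M1D: interface statements (Props). Blueprint: `/team-store/PLAN_M1D.md`. -/

set_option autoImplicit false
open Set Topology Filter

namespace Pool.Agent.MD

/-! ### part T: the topology -/

/-- FK: elementary facts on `f` and `NN`. -/
structure FK : Prop where
  lt_f_iff : ∀ (M G : Type) [MetricSpace M] (D : Data M G) (g : G) (p : M) (s : ℝ),
    s < D.f g p ↔ ∃ m : ℕ, s < D.N m p ∧ s < 1 - m * D.dl g p
  lt_NN_iff : ∀ (M G : Type) [MetricSpace M] (D : Data M G) (p : M) (s : ℝ),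
    s < D.NN p ↔ ∃ m : ℕ, s < D.N m p
  f_nonneg : ∀ (M G : Type) [MetricSpace M] (D : Data M G) (g : G) (p : M), 0 ≤ D.f g p
  f_le_NN : ∀ (M G : Type) [MetricSpace M] (D : Data M G) (g : G) (p : M), D.f g p ≤ D.NN p
  NN_nonneg : ∀ (M G : Type) [MetricSpace M] (D : Data M G) (p : M), 0 ≤ D.NN p
  NN_le_one : ∀ (M G : Type) [MetricSpace M] (D : Data M G) (p : M), D.NN p ≤ 1
  f_eq_NN : ∀ (M G : Type) [MetricSpace M] (D : Data M G) (g : G) (p : M), p ∈ D.K g →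
    D.f g p = D.NN p
  dl_cont : ∀ (M G : Type) [MetricSpace M] (D : Data M G) (g : G), Continuous (D.dl g)
  K_closed : ∀ (M G : Type) [MetricSpace M] (D : Data M G) (g : G), IsClosed (D.K g)
  f_lsc : ∀ (M G : Type) [MetricSpace M] (D : Data M G) (g : G), LowerSemicontinuous (D.f g)
  NN_lsc : ∀ (M G : Type) [MetricSpace M] (D : Data M G), LowerSemicontinuous D.NN
  f_contAt : ∀ (M G : Type) [MetricSpace M] (D : Data M G) (g : G) (p : M), p ∉ D.K g →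
    ContinuousAt (D.f g) p

/-- TAU: the topology of `D.TX`. -/
structure TAU : Prop where
  t3 : ∀ (M G : Type) [MetricSpace M] (D : Data M G), T3Space D.TX
  cont_toM : ∀ (M G : Type) [MetricSpace M] (D : Data M G), Continuous D.toM
  cont_f : ∀ (M G : Type) [MetricSpace M] (D : Data M G) (g : G),
    Continuous (fun x : D.TX => D.f g (D.toM x))
  nhds_notMem : ∀ (M G : Type) [MetricSpace M] (D : Data M G) (p : M) (U : Set D.TX),
    (∀ g, p ∉ D.K g) → (U ∈ 𝓝 (D.toX p) ↔ D.toX ⁻¹' U ∈ 𝓝 p)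
  nhds_mem : ∀ (M G : Type) [MetricSpace M] (D : Data M G) (g : G) (p : M) (U : Set D.TX),
    p ∈ D.K g → (U ∈ 𝓝 (D.toX p) ↔
      ∃ t : ℝ, D.NN p < t ∧ ∃ O : Set M, IsOpen O ∧ p ∈ O ∧ ∀ q ∈ O, D.f g q < t → D.toX q ∈ U)
  tendsto_toX : ∀ (M G : Type) [MetricSpace M] (D : Data M G) (ι : Type) (l : Filter ι)
    (u : ι → M) (p : M), Tendsto u l (𝓝 p) → Tendsto (fun i => D.NN (u i)) l (𝓝 (D.NN p)) →
      Tendsto (fun i => D.toX (u i)) l (𝓝 (D.toX p))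
  /-- with a countable index set the space is normal. -/
  normal : ∀ (M G : Type) [MetricSpace M] [CompactSpace M] [Countable G] (D : Data M G),
    NormalSpace D.TX

/-! ### part B: the `M_1` base -/

/-- BSAND: the sets `V g`. -/
def BSAND : Prop := ∀ (M G : Type) [MetricSpace M] [CompactSpace M] (D : Data M G) (s' s : ℝ),
  0 ≤ s' → s' < s → ∃ V : G → Set M, (∀ g, IsOpen (V g)) ∧
    (∀ g p, s ≤ D.f g p → p ∈ V g) ∧ (∀ g p, p ∈ V g → s' < D.f g p) ∧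
    (∀ q, s' < D.NN q → ∃ O : Set M, IsOpen O ∧ q ∈ O ∧ (Set.range fun g => V g ∩ O).Finite) ∧
    (∀ q, D.NN q ≤ s' → ∀ g, q ∉ D.K g → ∃ O : Set M, IsOpen O ∧ q ∈ O ∧ Disjoint O (V g))

/-- BASE: σ-closure-preserving base. -/
def BASE : Prop := ∀ (M G : Type) [MetricSpace M] [CompactSpace M] (D : Data M G),
  ∃ B : ℕ → Set (Set D.TX), TopologicalSpace.IsTopologicalBasis (⋃ n, B n) ∧
    ∀ n, ∀ F ⊆ B n, closure (⋃₀ F) = ⋃ U ∈ F, closure U

/-! ### part D: covering dimension ≤ 1 -/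

/-- CNT: only countably many indices are bad for a finite open cover. -/
def CNT : Prop := ∀ (M G : Type) [MetricSpace M] [CompactSpace M] (D : Data M G) (k : ℕ)
  (U : Fin k → Set D.TX), (∀ i, IsOpen (U i)) → (⋃ i, U i) = univ →
    {g : G | ∃ p ∈ D.K g, ∀ i, D.toX ⁻¹' (U i) ∉ 𝓝 p}.Countable

/-- CELL: dyadic cells in `[0,1] × 2^ℕ`. -/
def CELL : Prop := ∀ (k : ℕ) (U : Fin k → Set (unitInterval × Cant)), (∀ i, IsOpen (U i)) →
  ∃ A : Fin k → Set (unitInterval × Cant), (∀ i, A i ⊆ U i) ∧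
    (∀ i, ∀ x ∈ ⋃ j, U j, x ∈ closure (A i) → x ∈ A i) ∧ (⋃ i, U i) ⊆ (⋃ i, A i) ∧
    ∀ x, {i | x ∈ A i}.ncard ≤ 2

/-- DIM1 -/
def DIM1 : Prop := ∀ (Y : Type) [TopologicalSpace Y] (h : Y → unitInterval × Cant),
  IsInducing h → DimLe1On (univ : Set Y)

/-- SUBT: closed subspaces inducing into `[0,1] × 2^ℕ`. -/
def SUBT : Prop := ∀ (Z : Type) [TopologicalSpace Z] (F : Set Z), IsClosed F →
  ∀ h : F → unitInterval × Cant, IsInducing h → DimLe1On F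

/-- SWELL: swelling of a closed family of order ≤ 2. -/
def SWELL : Prop := ∀ (Z : Type) [TopologicalSpace Z] [NormalSpace Z] (k : ℕ)
  (A U : Fin k → Set Z), (∀ i, IsClosed (A i)) → (∀ i, IsOpen (U i)) → (∀ i, A i ⊆ U i) →
    (∀ x, {i | x ∈ A i}.ncard ≤ 2) →
    ∃ O : Fin k → Set Z, (∀ i, IsOpen (O i)) ∧ (∀ i, A i ⊆ O i) ∧ (∀ i, closure (O i) ⊆ U i) ∧
      ∀ x, {i | x ∈ O i}.ncard ≤ 2

/-- SUM: countable closed sum theorem. -/
def SUM : Prop := ∀ (Z : Type) [TopologicalSpace Z] [NormalSpace Z] (ι : Type) [Countable ι]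
  (F : ι → Set Z), (∀ i, IsClosed (F i)) → (⋃ i, F i) = univ → (∀ i, DimLe1On (F i)) →
    DimLe1On (univ : Set Z)

/-- TD: thin compact sets are totally disconnected, hence embed in the Cantor space. -/
def TD : Prop := ∀ K : Set (unitInterval × Cant), IsClosed K →
  (∀ c : Cant, interior {r : unitInterval | (r, c) ∈ K} = ∅) → ∃ h : K → Cant, IsInducing h

/-- PIECEK: the closed pieces `K_b`. -/
def PIECEK : Prop := ∀ (B : Set Cant) (b : B),
  DimLe1On ((DD.restrict B).toM ⁻¹' ((DD.restrict B).K b))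

/-- PIECEM: closed pieces that miss all `K_b`. -/
def PIECEM : Prop := ∀ (G : Type) (D : Data MM G) (F : Set MM), IsClosed F →
  (∀ g, Disjoint F (D.K g)) → DimLe1On (D.toM ⁻¹' F)

/-- ZDIM: for a closed countable set of indices `B` the space `(DD.restrict B).TX` has `dim ≤ 1`. -/
def ZDIM : Prop := ∀ B : Set Cant, B.Countable → IsClosed B →
  DimLe1On (univ : Set (DD.restrict B).TX)

/-- DIMX: `dim XX ≤ 1`. -/
def DIMX : Prop := ∀ (k : ℕ) (U : Fin k → Set XX), (∀ i, IsOpen (U i)) → (⋃ i, U i) = univ →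
  ∃ V : Fin k → Set XX, (∀ i, IsOpen (V i)) ∧ (⋃ i, V i) = univ ∧ (∀ i, V i ⊆ U i) ∧
    ∀ x, {i | x ∈ V i}.ncard ≤ 2

/-! ### part I: large inductive dimension > 1 -/

/-- CROSS: crossing parity. -/
def CROSS : Prop := ∀ (T : Type) [TopologicalSpace T] (U V P Q : Set (unitInterval × T)),
  IsOpen U → IsOpen V → IsClosed P → IsClosed Q → Disjoint U V → Disjoint P Q →
  U ∪ V = (P ∪ Q)ᶜ → (∀ c, ((0, c) : unitInterval × T) ∈ U) →
  (∀ c, ((1, c) : unitInterval × T) ∈ V) →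
  (∀ c, interior {r : unitInterval | (r, c) ∈ P ∪ Q} = ∅) →
  ∃ H : Set T, IsClopen H ∧ (∀ c, (∀ r, ((r, c) : unitInterval × T) ∉ Q) → c ∈ H) ∧
    (∀ c, (∀ r, ((r, c) : unitInterval × T) ∉ P) → c ∉ H)

/-- ERD: the Erdős space lemma. -/
def ERD : Prop := ∀ H : Set Cant, (fun _ => false) ∈ H →
  (∀ (u : ℕ → Cant) (c : Cant), Tendsto u atTop (𝓝 c) →
    Tendsto (fun n => NNc (u n)) atTop (𝓝 (NNc c)) → ∀ᶠ n in atTop, (u n ∈ H ↔ c ∈ H)) →
  ∃ c ∈ H, NNc c = 1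

/-- `Ind L ≤ 0` in the form of the frozen statement. -/
def ZeroDim (L : Set XX) : Prop := ∀ A O : Set XX, IsClosed A → IsOpen O → A ∩ L ⊆ O →
  ∃ W : Set XX, IsOpen W ∧ A ∩ L ⊆ W ∩ L ∧ closure (W ∩ L) ∩ L ⊆ O ∧
    {x : XX | x ∈ closure (W ∩ L) ∧ x ∈ L ∧ x ∉ W} = ∅

/-- INDNT: the case where the code is not thin. -/
def INDNT : Prop := ∀ (W V : Set XX) (g : Cant), IsOpen W → IsOpen V → Disjoint W V →
  (∀ p : MM, tt p = 0 → DD.toX p ∈ W) → (∀ p : MM, tt p = 1 → DD.toX p ∈ V) →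
  ZeroDim (W ∪ V)ᶜ → LL g = (interior (DD.toX ⁻¹' W) ∪ interior (DD.toX ⁻¹' V))ᶜ →
  ¬ Thin g → False

/-- INDT: the case where the code is thin. -/
def INDT : Prop := ∀ (W V : Set XX) (g : Cant), IsOpen W → IsOpen V → Disjoint W V →
  (∀ p : MM, tt p = 0 → DD.toX p ∈ W) → (∀ p : MM, tt p = 1 → DD.toX p ∈ V) →
  ZeroDim (W ∪ V)ᶜ → LL g = (interior (DD.toX ⁻¹' W) ∪ interior (DD.toX ⁻¹' V))ᶜ →
  Thin g → False

/-- INDX: `Ind XX ≤ 1` fails, in the form of the frozen statement. -/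
def INDX : Prop := ¬ ∀ A O : Set XX, IsClosed A → IsOpen O → A ⊆ O →
  ∃ W : Set XX, IsOpen W ∧ A ⊆ W ∧ closure W ⊆ O ∧ ZeroDim {x : XX | x ∈ closure W ∧ x ∉ W}

end Pool.Agent.MD
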