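import Pool.Agent.Helper36_M1D.Stmts

set_option autoImplicit false
open Set Topology Filter

namespace Pool.Agent.MD

section
variable {M G : Type} [MetricSpace M] (D : Data M G)

theorem tau_emb : IsEmbedding (fun x : D.TX => ((D.toM x, fun g => D.f g (D.toM x)) : M × (G → ℝ))) where
  eq_induced := rfl
  injective := by
    intro x y h
    have := congrArg Prod.fst h
    exact this

theorem tau_t3 : T3Space D.TX := (tau_emb D).t3Space

theorem tau_cont_toM : Continuous D.toM := continuous_fst.comp (tau_emb D).continuous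

theorem tau_cont_f (g : G) : Continuous (fun x : D.TX => D.f g (D.toM x)) :=
  (continuous_apply g).comp (continuous_snd.comp (tau_emb D).continuous)

/-- convergence in `TX`. -/
theorem tau_tendsto_iff {ι : Type} (l : Filter ι) (u : ι → M) (p : M) :
    Tendsto (fun i => D.toX (u i)) l (𝓝 (D.toX p)) ↔
      Tendsto u l (𝓝 p) ∧ ∀ g, Tendsto (fun i => D.f g (u i)) l (𝓝 (D.f g p)) := by
  rw [(tau_emb D).isInducing.tendsto_nhds_iff]
  constructor
  · intro h
    refine ⟨(continuous_fst.tendsto _).comp h, fun g => ?_⟩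
    exact (((continuous_apply g).comp continuous_snd).tendsto _).comp h
  · rintro ⟨h1, h2⟩
    rw [nhds_prod_eq]
    exact h1.prodMk (tendsto_pi_nhds.2 h2)

end

/-- a general criterion: the neighbourhood filter of `toX p`. -/
theorem tau_le {M G : Type} [MetricSpace M] (D : Data M G) (p : M) (l : Filter M)
    (h1 : l ≤ 𝓝 p) (h2 : ∀ g, Tendsto (D.f g) l (𝓝 (D.f g p))) :
    Tendsto D.toX l (𝓝 (D.toX p)) :=
  (tau_tendsto_iff D l id p).2 ⟨h1, h2⟩

theorem tau_nhds_notMem (hFK : FK) {M G : Type} [MetricSpace M] (D : Data M G) (p : M)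
    (U : Set D.TX) (h : ∀ g, p ∉ D.K g) : (U ∈ 𝓝 (D.toX p) ↔ D.toX ⁻¹' U ∈ 𝓝 p) := by
  constructor
  · intro hU
    exact tau_le D p (𝓝 p) le_rfl (fun g => hFK.f_contAt M G D g p (h g)) hU
  · intro hU
    have := (tau_cont_toM D).continuousAt (x := D.toX p)
    exact this hU

theorem tau_nhds_mem (hFK : FK) {M G : Type} [MetricSpace M] (D : Data M G) (g : G) (p : M)
    (U : Set D.TX) (h : p ∈ D.K g) : (U ∈ 𝓝 (D.toX p) ↔
      ∃ t : ℝ, D.NN p < t ∧ ∃ O : Set M, IsOpen O ∧ p ∈ O ∧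
        ∀ q ∈ O, D.f g q < t → D.toX q ∈ U) := by
  constructor
  · intro hU
    -- the filter `𝓝 p ⊓ comap (f g) (𝓝 (f g p))`
    have hfg : D.f g p = D.NN p := hFK.f_eq_NN M G D g p h
    set l : Filter M := 𝓝 p ⊓ comap (D.f g) (𝓝 (D.f g p)) with hl
    have h1 : l ≤ 𝓝 p := inf_le_left
    have h2 : ∀ g', Tendsto (D.f g') l (𝓝 (D.f g' p)) := by
      intro g'
      by_cases hg : g' = g
      · subst hg
        exact tendsto_comap.mono_left inf_le_right
      · have hp : p ∉ D.K g' := fun h' => hg (D.disj g' g p h' h)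
        exact Filter.Tendsto.mono_left (hFK.f_contAt M G D g' p hp) h1
    have h3 := tau_le D p l h1 h2 hU
    rw [Filter.mem_map, hl, Filter.mem_inf_iff_superset] at h3
    obtain ⟨S, hS, T, hT, hST⟩ := h3
    rw [Filter.mem_comap] at hT
    obtain ⟨R, hR, hRT⟩ := hT
    obtain ⟨a, b, ⟨ha, hb⟩, hab⟩ := mem_nhds_iff_exists_Ioo_subset.1 hR
    have hlow : ∀ᶠ q in 𝓝 p, a < D.f g q := (hFK.f_lsc M G D g) p a ha
    obtain ⟨O, hOsub, hO, hpO⟩ := mem_nhds_iff.1 (Filter.inter_mem hS hlow)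
    refine ⟨b, hfg ▸ hb, O, hO, hpO, fun q hq hqb => ?_⟩
    exact hST ⟨(hOsub hq).1, hRT (hab ⟨(hOsub hq).2, hqb⟩)⟩
  · rintro ⟨t, ht, O, hO, hpO, hsub⟩
    have hfg : D.f g p = D.NN p := hFK.f_eq_NN M G D g p h
    have e1 : ∀ᶠ x in 𝓝 (D.toX p), D.toM x ∈ O :=
      (tau_cont_toM D).continuousAt (hO.mem_nhds hpO)
    have e2 : ∀ᶠ x in 𝓝 (D.toX p), D.f g (D.toM x) < t := by
      refine (tau_cont_f D g).continuousAt.eventually (gt_mem_nhds ?_)
      change D.f g p < t
      rw [hfg]; exact ht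
    filter_upwards [e1, e2] with x hx1 hx2
    exact hsub (D.toM x) hx1 hx2

theorem tau_tendsto (hFK : FK) {M G : Type} [MetricSpace M] (D : Data M G) (ι : Type)
    (l : Filter ι) (u : ι → M) (p : M) (h1 : Tendsto u l (𝓝 p))
    (h2 : Tendsto (fun i => D.NN (u i)) l (𝓝 (D.NN p))) :
    Tendsto (fun i => D.toX (u i)) l (𝓝 (D.toX p)) := by
  rw [tau_tendsto_iff]
  refine ⟨h1, fun g => ?_⟩
  by_cases hp : p ∈ D.K g
  · have hfg : D.f g p = D.NN p := hFK.f_eq_NN M G D g p hp
    refine tendsto_order.2 ⟨fun s hs => ?_, fun t ht => ?_⟩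
    · exact h1.eventually ((hFK.f_lsc M G D g) p s hs)
    · rw [hfg] at ht
      filter_upwards [(tendsto_order.1 h2).2 t ht] with i hi
      exact lt_of_le_of_lt (hFK.f_le_NN M G D g (u i)) hi
  · have h3 : Tendsto (D.f g) (𝓝 p) (𝓝 (D.f g p)) := hFK.f_contAt M G D g p hp
    exact h3.comp h1

theorem tau_normal {M G : Type} [MetricSpace M] [CompactSpace M] [Countable G] (D : Data M G) :
    NormalSpace D.TX := by
  have : T3Space D.TX := tau_t3 D
  have : SecondCountableTopology M := inferInstance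
  have : SecondCountableTopology D.TX := (tau_emb D).isInducing.secondCountableTopology
  infer_instance

theorem tau (hFK : FK) : TAU where
  t3 _ _ _ D := tau_t3 D
  cont_toM _ _ _ D := tau_cont_toM D
  cont_f _ _ _ D := tau_cont_f D
  nhds_notMem _ _ _ D := tau_nhds_notMem hFK D
  nhds_mem _ _ _ D := tau_nhds_mem hFK D
  tendsto_toX _ _ _ D := tau_tendsto hFK D
  normal _ _ _ _ _ D := tau_normal D

end Pool.Agent.MD
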